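import Pool.Agent.Lib_helper72.KY.V4

/-!
# The curve with `b = 210`, `c = -42`: the units, their logarithmic derivatives
-/

set_option autoImplicit false
set_option linter.unusedSectionVars false
set_option linter.unusedSimpArgs false
set_option linter.unusedVariables false

namespace Pool.Agent.KYa

open Polynomial WeierstrassCurve.Affine WithZero TN KY
open Pool.Agent.K7 (LC LC_x LC_y LC_xc LC_yx LC_one LC_c LC_prod wr2)

section K

variable (k : Type*) [Field k]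

/-- the curve -/
abbrev W8 : WeierstrassCurve.Affine k := Wt (210) (-42)

/-- the units -/
noncomputable def uK : Fin 11 → K (W8 k) :=
  ![xK, xK - cK (210), xK - cK (-42), xK - cK (30), xK - cK (-210), xK - cK (14), yK,
    yK - cK (-42) * xK, yK - cK (-6) * xK, yK - cK (-30) * xK, yK - cK (-14) * xK]

lemma LC_uK (j : Fin 11) : LC (uK k j) (- oU j 0) 1 := by
  fin_cases j
  · exact LC_x
  · exact LC_xc _
  · exact LC_xc _
  · exact LC_xc _
  · exact LC_xc _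
  · exact LC_xc _
  · exact LC_y
  · exact LC_yx _
  · exact LC_yx _
  · exact LC_yx _
  · exact LC_yx _

lemma uK_ne (j : Fin 11) : uK k j ≠ 0 := (LC_uK k j).ne

/-- the function vanishing at the eleven points -/
noncomputable def qK : K (W8 k) :=
  xK * (xK - cK (210)) * (xK - cK (-42)) *
    (xK - cK (30)) * (xK - cK (-210)) * (xK - cK (14))

/-- the coefficients of `q u'/u`, times `1` -/
def rrz : Fin 11 → Fin 13 → ℤ :=
  ![![163364040000, -46675440000, -1555848000, 2685690000, 125949600, 14112000, 211680, -1957284, -91056, -296, -4, 43, 2],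
    ![0, -777924000, 0, 218559600, 7408800, -11748240, -564480, -123144, -3696, 8734, 416, 43, 2],
    ![0, 3889620000, 0, -1203930000, -37044000, 92610000, 3880800, -1869000, -87360, -2102, -88, 43, 2],
    ![0, -5445468000, 0, 1374332400, 51861600, -43711920, -2469600, -1927464, -89376, 994, 56, 43, 2],
    ![0, 777924000, 0, -225968400, -7408800, 13865040, 635040, 1176, -2016, -9326, -424, 43, 2],
    ![0, -11668860000, 0, 2500470000, 111132000, -13230000, -1058400, -1953000, -90720, 306, 24, 43, 2],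
    ![326728080000, -60678072000, -1555848000, 2882023200, 129654000, 11924640, -70560, -2080008, -92904, 8228, 204, 86, 3],
    ![163364040000, -42785820000, -777924000, 2259684000, 48157200, 25225200, 1764000, -1991724, -91056, -550, 162, 44, 3],
    ![163364040000, -19448100000, -777924000, 481572000, 70383600, 54860400, 811440, -3539004, -133896, -1234, -18, 80, 3],
    ![163364040000, -41229972000, -777924000, 2348589600, 85201200, 10407600, -811440, -1920828, -91224, -3082, -186, 56, 3],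
    ![163364040000, -35006580000, -777924000, 2407860000, 114836400, 14641200, -105840, -1939644, -91896, -6458, -202, 72, 3]]

/-- the coefficients of `q u'/u` -/
def rr (j : Fin 11) (m : Fin 13) : k := (rrz j m : k) / 1

lemma rr_top [CharZero k] (j : Fin 11) : rr k j 12 = ((- oU j 0 : ℤ) : k) := by
  have h : ∀ j : Fin 11, rrz j 12 = 1 * (- oU j 0) := by decide +kernel
  unfold rr
  rw [h]
  first | (push_cast; field_simp; done) | (push_cast; simp; done) | simp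

lemma hdx : (dx : K (W8 k)) = 2 * yK + (1 - cK (-42)) * xK - cK (210) := by
  show 2 * yK + cK (1 - -42) * xK + cK (- (210)) = _
  simp only [map_sub, map_one, map_neg]; ring

lemma hdy : (dy : K (W8 k)) = 3 * xK ^ 2 - 2 * cK (210) * xK - (1 - cK (-42)) * yK := by
  show 3 * xK ^ 2 + 2 * cK (- (210)) * xK + cK 0 - cK (1 - -42) * yK = _
  simp only [map_sub, map_one, map_neg, map_zero]; ring

lemma dv_cmul (a : k) (z : K (W8 k)) : dv (cK a * z) = cK a * dv z := by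
  rw [dv_mul, dv_c, mul_zero, add_zero]

lemma dv_sub' (z w : K (W8 k)) : dv (z - w) = dv z - dv w := by
  have h := dv_add (z - w) w
  rw [sub_add_cancel] at h
  linear_combination -h

/-- the derivatives of the units -/
lemma dv_uK (j : Fin 11) : dv (uK k j) = (![dx, dx, dx, dx, dx, dx, dy,
    dy - cK (-42) * dx, dy - cK (-6) * dx, dy - cK (-30) * dx, dy - cK (-14) * dx] : Fin 11 → K (W8 k)) j := by
  fin_cases j
  · exact dv_x
  · exact (dv_sub_c _ _).trans dv_x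
  · exact (dv_sub_c _ _).trans dv_x
  · exact (dv_sub_c _ _).trans dv_x
  · exact (dv_sub_c _ _).trans dv_x
  · exact (dv_sub_c _ _).trans dv_x
  · exact dv_y
  · show dv (yK - cK (-42) * xK) = dy - cK (-42) * dx
    rw [dv_sub', dv_cmul, dv_x, dv_y]
  · show dv (yK - cK (-6) * xK) = dy - cK (-6) * dx
    rw [dv_sub', dv_cmul, dv_x, dv_y]
  · show dv (yK - cK (-30) * xK) = dy - cK (-30) * dx
    rw [dv_sub', dv_cmul, dv_x, dv_y]
  · show dv (yK - cK (-14) * xK) = dy - cK (-14) * dx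
    rw [dv_sub', dv_cmul, dv_x, dv_y]

lemma eqW8 : (yK : K (W8 k)) ^ 2 + (1 - cK (-42)) * xK * yK - cK (210) * yK =
    xK ^ 3 - cK (210) * xK ^ 2 := eqW

lemma NV_eq (r : Fin 13 → k) : (NV r : K (W8 k)) = cK (r 0) + cK (r 1) * xK + cK (r 2) * yK +
    cK (r 3) * xK ^ 2 + cK (r 4) * (xK * yK) + cK (r 5) * xK ^ 3 + cK (r 6) * (xK ^ 2 * yK) +
    cK (r 7) * xK ^ 4 + cK (r 8) * (xK ^ 3 * yK) + cK (r 9) * xK ^ 5 +
    cK (r 10) * (xK ^ 4 * yK) + cK (r 11) * xK ^ 6 + cK (r 12) * (xK ^ 5 * yK) := by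
  unfold NV
  rw [Fin.sum_univ_castSucc, sum12]
  show cK (r 0) * 1 + cK (r 1) * xK + cK (r 2) * yK + cK (r 3) * xK ^ 2 +
    cK (r 4) * (xK * yK) + cK (r 5) * xK ^ 3 + cK (r 6) * (xK ^ 2 * yK) + cK (r 7) * xK ^ 4 +
    cK (r 8) * (xK ^ 3 * yK) + cK (r 9) * xK ^ 5 + cK (r 10) * (xK ^ 4 * yK) +
    cK (r 11) * xK ^ 6 + cK (r 12) * (xK ^ 5 * yK) = _
  ring


lemma ld_uK0 [CharZero k] : qK k * ld (uK k 0) = NV (rr k 0) := by
  have : CharZero (K (W8 k)) :=
    charZero_of_injective_algebraMap (algebraMap k (K (W8 k))).injective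
  have hu := uK_ne k 0
  have he := eqW8 k
  have h1 := hdx k
  have h2 := hdy k
  have n0 : (cK (210) : K (W8 k)) = 210 := by simp [map_div₀, map_ofNat, map_neg]
  have n1 : (cK (-42) : K (W8 k)) = -42 := by simp [map_div₀, map_ofNat, map_neg]
  have n2 : (cK (30) : K (W8 k)) = 30 := by simp [map_div₀, map_ofNat, map_neg]
  have n3 : (cK (-210) : K (W8 k)) = -210 := by simp [map_div₀, map_ofNat, map_neg]
  have n4 : (cK (14) : K (W8 k)) = 14 := by simp [map_div₀, map_ofNat, map_neg]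
  have n5 : (cK (-6) : K (W8 k)) = -6 := by simp [map_div₀, map_ofNat, map_neg]
  have n6 : (cK (-30) : K (W8 k)) = -30 := by simp [map_div₀, map_ofNat, map_neg]
  have n7 : (cK (-14) : K (W8 k)) = -14 := by simp [map_div₀, map_ofNat, map_neg]
  have hr : ∀ j m, (cK (rr k j m) : K (W8 k)) = ((rrz j m : ℤ) : K (W8 k)) / 1 := by
    intro j m
    unfold rr
    first | rw [map_div₀, map_intCast, map_ofNat] | rw [map_div₀, map_intCast, map_one]
  rw [n0, n1] at he h1 h2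
  unfold ld
  rw [← mul_div_assoc, div_eq_iff hu, dv_uK, NV_eq]
  simp only [hr]
  unfold qK
  rw [n0, n1, n2, n3, n4]
  show xK * (xK - (210)) * (xK - (-42)) * (xK - (30)) * (xK - (-210)) * (xK - (14)) * dx =
      (((163364040000 : ℤ) : K (W8 k)) / 1 + ((-46675440000 : ℤ) : K (W8 k)) / 1 * xK +
      ((-1555848000 : ℤ) : K (W8 k)) / 1 * yK + ((2685690000 : ℤ) : K (W8 k)) / 1 * xK ^ 2 +
      ((125949600 : ℤ) : K (W8 k)) / 1 * (xK * yK) + ((14112000 : ℤ) : K (W8 k)) / 1 * xK ^ 3 +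
      ((211680 : ℤ) : K (W8 k)) / 1 * (xK ^ 2 * yK) + ((-1957284 : ℤ) : K (W8 k)) / 1 * xK ^ 4 +
      ((-91056 : ℤ) : K (W8 k)) / 1 * (xK ^ 3 * yK) + ((-296 : ℤ) : K (W8 k)) / 1 * xK ^ 5 +
      ((-4 : ℤ) : K (W8 k)) / 1 * (xK ^ 4 * yK) + ((43 : ℤ) : K (W8 k)) / 1 * xK ^ 6 +
      ((2 : ℤ) : K (W8 k)) / 1 * (xK ^ 5 * yK)) * (xK)
  push_cast
  rw [h1]
  ring


lemma ld_uK1 [CharZero k] : qK k * ld (uK k 1) = NV (rr k 1) := by
  have : CharZero (K (W8 k)) :=
    charZero_of_injective_algebraMap (algebraMap k (K (W8 k))).injective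
  have hu := uK_ne k 1
  have he := eqW8 k
  have h1 := hdx k
  have h2 := hdy k
  have n0 : (cK (210) : K (W8 k)) = 210 := by simp [map_div₀, map_ofNat, map_neg]
  have n1 : (cK (-42) : K (W8 k)) = -42 := by simp [map_div₀, map_ofNat, map_neg]
  have n2 : (cK (30) : K (W8 k)) = 30 := by simp [map_div₀, map_ofNat, map_neg]
  have n3 : (cK (-210) : K (W8 k)) = -210 := by simp [map_div₀, map_ofNat, map_neg]
  have n4 : (cK (14) : K (W8 k)) = 14 := by simp [map_div₀, map_ofNat, map_neg]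
  have n5 : (cK (-6) : K (W8 k)) = -6 := by simp [map_div₀, map_ofNat, map_neg]
  have n6 : (cK (-30) : K (W8 k)) = -30 := by simp [map_div₀, map_ofNat, map_neg]
  have n7 : (cK (-14) : K (W8 k)) = -14 := by simp [map_div₀, map_ofNat, map_neg]
  have hr : ∀ j m, (cK (rr k j m) : K (W8 k)) = ((rrz j m : ℤ) : K (W8 k)) / 1 := by
    intro j m
    unfold rr
    first | rw [map_div₀, map_intCast, map_ofNat] | rw [map_div₀, map_intCast, map_one]
  rw [n0, n1] at he h1 h2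
  unfold ld
  rw [← mul_div_assoc, div_eq_iff hu, dv_uK, NV_eq]
  simp only [hr]
  unfold qK
  rw [n0, n1, n2, n3, n4]
  show xK * (xK - (210)) * (xK - (-42)) * (xK - (30)) * (xK - (-210)) * (xK - (14)) * dx =
      (((0 : ℤ) : K (W8 k)) / 1 + ((-777924000 : ℤ) : K (W8 k)) / 1 * xK +
      ((0 : ℤ) : K (W8 k)) / 1 * yK + ((218559600 : ℤ) : K (W8 k)) / 1 * xK ^ 2 +
      ((7408800 : ℤ) : K (W8 k)) / 1 * (xK * yK) + ((-11748240 : ℤ) : K (W8 k)) / 1 * xK ^ 3 +
      ((-564480 : ℤ) : K (W8 k)) / 1 * (xK ^ 2 * yK) + ((-123144 : ℤ) : K (W8 k)) / 1 * xK ^ 4 +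
      ((-3696 : ℤ) : K (W8 k)) / 1 * (xK ^ 3 * yK) + ((8734 : ℤ) : K (W8 k)) / 1 * xK ^ 5 +
      ((416 : ℤ) : K (W8 k)) / 1 * (xK ^ 4 * yK) + ((43 : ℤ) : K (W8 k)) / 1 * xK ^ 6 +
      ((2 : ℤ) : K (W8 k)) / 1 * (xK ^ 5 * yK)) * (xK - cK (210))
  push_cast
  rw [h1, n0]
  ring


lemma ld_uK2 [CharZero k] : qK k * ld (uK k 2) = NV (rr k 2) := by
  have : CharZero (K (W8 k)) :=
    charZero_of_injective_algebraMap (algebraMap k (K (W8 k))).injective
  have hu := uK_ne k 2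
  have he := eqW8 k
  have h1 := hdx k
  have h2 := hdy k
  have n0 : (cK (210) : K (W8 k)) = 210 := by simp [map_div₀, map_ofNat, map_neg]
  have n1 : (cK (-42) : K (W8 k)) = -42 := by simp [map_div₀, map_ofNat, map_neg]
  have n2 : (cK (30) : K (W8 k)) = 30 := by simp [map_div₀, map_ofNat, map_neg]
  have n3 : (cK (-210) : K (W8 k)) = -210 := by simp [map_div₀, map_ofNat, map_neg]
  have n4 : (cK (14) : K (W8 k)) = 14 := by simp [map_div₀, map_ofNat, map_neg]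
  have n5 : (cK (-6) : K (W8 k)) = -6 := by simp [map_div₀, map_ofNat, map_neg]
  have n6 : (cK (-30) : K (W8 k)) = -30 := by simp [map_div₀, map_ofNat, map_neg]
  have n7 : (cK (-14) : K (W8 k)) = -14 := by simp [map_div₀, map_ofNat, map_neg]
  have hr : ∀ j m, (cK (rr k j m) : K (W8 k)) = ((rrz j m : ℤ) : K (W8 k)) / 1 := by
    intro j m
    unfold rr
    first | rw [map_div₀, map_intCast, map_ofNat] | rw [map_div₀, map_intCast, map_one]
  rw [n0, n1] at he h1 h2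
  unfold ld
  rw [← mul_div_assoc, div_eq_iff hu, dv_uK, NV_eq]
  simp only [hr]
  unfold qK
  rw [n0, n1, n2, n3, n4]
  show xK * (xK - (210)) * (xK - (-42)) * (xK - (30)) * (xK - (-210)) * (xK - (14)) * dx =
      (((0 : ℤ) : K (W8 k)) / 1 + ((3889620000 : ℤ) : K (W8 k)) / 1 * xK +
      ((0 : ℤ) : K (W8 k)) / 1 * yK + ((-1203930000 : ℤ) : K (W8 k)) / 1 * xK ^ 2 +
      ((-37044000 : ℤ) : K (W8 k)) / 1 * (xK * yK) + ((92610000 : ℤ) : K (W8 k)) / 1 * xK ^ 3 +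
      ((3880800 : ℤ) : K (W8 k)) / 1 * (xK ^ 2 * yK) + ((-1869000 : ℤ) : K (W8 k)) / 1 * xK ^ 4 +
      ((-87360 : ℤ) : K (W8 k)) / 1 * (xK ^ 3 * yK) + ((-2102 : ℤ) : K (W8 k)) / 1 * xK ^ 5 +
      ((-88 : ℤ) : K (W8 k)) / 1 * (xK ^ 4 * yK) + ((43 : ℤ) : K (W8 k)) / 1 * xK ^ 6 +
      ((2 : ℤ) : K (W8 k)) / 1 * (xK ^ 5 * yK)) * (xK - cK (-42))
  push_cast
  rw [h1, n1]
  ring


lemma ld_uK3 [CharZero k] : qK k * ld (uK k 3) = NV (rr k 3) := by
  have : CharZero (K (W8 k)) :=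
    charZero_of_injective_algebraMap (algebraMap k (K (W8 k))).injective
  have hu := uK_ne k 3
  have he := eqW8 k
  have h1 := hdx k
  have h2 := hdy k
  have n0 : (cK (210) : K (W8 k)) = 210 := by simp [map_div₀, map_ofNat, map_neg]
  have n1 : (cK (-42) : K (W8 k)) = -42 := by simp [map_div₀, map_ofNat, map_neg]
  have n2 : (cK (30) : K (W8 k)) = 30 := by simp [map_div₀, map_ofNat, map_neg]
  have n3 : (cK (-210) : K (W8 k)) = -210 := by simp [map_div₀, map_ofNat, map_neg]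
  have n4 : (cK (14) : K (W8 k)) = 14 := by simp [map_div₀, map_ofNat, map_neg]
  have n5 : (cK (-6) : K (W8 k)) = -6 := by simp [map_div₀, map_ofNat, map_neg]
  have n6 : (cK (-30) : K (W8 k)) = -30 := by simp [map_div₀, map_ofNat, map_neg]
  have n7 : (cK (-14) : K (W8 k)) = -14 := by simp [map_div₀, map_ofNat, map_neg]
  have hr : ∀ j m, (cK (rr k j m) : K (W8 k)) = ((rrz j m : ℤ) : K (W8 k)) / 1 := by
    intro j m
    unfold rr
    first | rw [map_div₀, map_intCast, map_ofNat] | rw [map_div₀, map_intCast, map_one]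
  rw [n0, n1] at he h1 h2
  unfold ld
  rw [← mul_div_assoc, div_eq_iff hu, dv_uK, NV_eq]
  simp only [hr]
  unfold qK
  rw [n0, n1, n2, n3, n4]
  show xK * (xK - (210)) * (xK - (-42)) * (xK - (30)) * (xK - (-210)) * (xK - (14)) * dx =
      (((0 : ℤ) : K (W8 k)) / 1 + ((-5445468000 : ℤ) : K (W8 k)) / 1 * xK +
      ((0 : ℤ) : K (W8 k)) / 1 * yK + ((1374332400 : ℤ) : K (W8 k)) / 1 * xK ^ 2 +
      ((51861600 : ℤ) : K (W8 k)) / 1 * (xK * yK) + ((-43711920 : ℤ) : K (W8 k)) / 1 * xK ^ 3 +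
      ((-2469600 : ℤ) : K (W8 k)) / 1 * (xK ^ 2 * yK) + ((-1927464 : ℤ) : K (W8 k)) / 1 * xK ^ 4 +
      ((-89376 : ℤ) : K (W8 k)) / 1 * (xK ^ 3 * yK) + ((994 : ℤ) : K (W8 k)) / 1 * xK ^ 5 +
      ((56 : ℤ) : K (W8 k)) / 1 * (xK ^ 4 * yK) + ((43 : ℤ) : K (W8 k)) / 1 * xK ^ 6 +
      ((2 : ℤ) : K (W8 k)) / 1 * (xK ^ 5 * yK)) * (xK - cK (30))
  push_cast
  rw [h1, n2]
  ring


lemma ld_uK4 [CharZero k] : qK k * ld (uK k 4) = NV (rr k 4) := by
  have : CharZero (K (W8 k)) :=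
    charZero_of_injective_algebraMap (algebraMap k (K (W8 k))).injective
  have hu := uK_ne k 4
  have he := eqW8 k
  have h1 := hdx k
  have h2 := hdy k
  have n0 : (cK (210) : K (W8 k)) = 210 := by simp [map_div₀, map_ofNat, map_neg]
  have n1 : (cK (-42) : K (W8 k)) = -42 := by simp [map_div₀, map_ofNat, map_neg]
  have n2 : (cK (30) : K (W8 k)) = 30 := by simp [map_div₀, map_ofNat, map_neg]
  have n3 : (cK (-210) : K (W8 k)) = -210 := by simp [map_div₀, map_ofNat, map_neg]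
  have n4 : (cK (14) : K (W8 k)) = 14 := by simp [map_div₀, map_ofNat, map_neg]
  have n5 : (cK (-6) : K (W8 k)) = -6 := by simp [map_div₀, map_ofNat, map_neg]
  have n6 : (cK (-30) : K (W8 k)) = -30 := by simp [map_div₀, map_ofNat, map_neg]
  have n7 : (cK (-14) : K (W8 k)) = -14 := by simp [map_div₀, map_ofNat, map_neg]
  have hr : ∀ j m, (cK (rr k j m) : K (W8 k)) = ((rrz j m : ℤ) : K (W8 k)) / 1 := by
    intro j m
    unfold rr
    first | rw [map_div₀, map_intCast, map_ofNat] | rw [map_div₀, map_intCast, map_one]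
  rw [n0, n1] at he h1 h2
  unfold ld
  rw [← mul_div_assoc, div_eq_iff hu, dv_uK, NV_eq]
  simp only [hr]
  unfold qK
  rw [n0, n1, n2, n3, n4]
  show xK * (xK - (210)) * (xK - (-42)) * (xK - (30)) * (xK - (-210)) * (xK - (14)) * dx =
      (((0 : ℤ) : K (W8 k)) / 1 + ((777924000 : ℤ) : K (W8 k)) / 1 * xK +
      ((0 : ℤ) : K (W8 k)) / 1 * yK + ((-225968400 : ℤ) : K (W8 k)) / 1 * xK ^ 2 +
      ((-7408800 : ℤ) : K (W8 k)) / 1 * (xK * yK) + ((13865040 : ℤ) : K (W8 k)) / 1 * xK ^ 3 +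
      ((635040 : ℤ) : K (W8 k)) / 1 * (xK ^ 2 * yK) + ((1176 : ℤ) : K (W8 k)) / 1 * xK ^ 4 +
      ((-2016 : ℤ) : K (W8 k)) / 1 * (xK ^ 3 * yK) + ((-9326 : ℤ) : K (W8 k)) / 1 * xK ^ 5 +
      ((-424 : ℤ) : K (W8 k)) / 1 * (xK ^ 4 * yK) + ((43 : ℤ) : K (W8 k)) / 1 * xK ^ 6 +
      ((2 : ℤ) : K (W8 k)) / 1 * (xK ^ 5 * yK)) * (xK - cK (-210))
  push_cast
  rw [h1, n3]
  ring


lemma ld_uK5 [CharZero k] : qK k * ld (uK k 5) = NV (rr k 5) := by
  have : CharZero (K (W8 k)) :=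
    charZero_of_injective_algebraMap (algebraMap k (K (W8 k))).injective
  have hu := uK_ne k 5
  have he := eqW8 k
  have h1 := hdx k
  have h2 := hdy k
  have n0 : (cK (210) : K (W8 k)) = 210 := by simp [map_div₀, map_ofNat, map_neg]
  have n1 : (cK (-42) : K (W8 k)) = -42 := by simp [map_div₀, map_ofNat, map_neg]
  have n2 : (cK (30) : K (W8 k)) = 30 := by simp [map_div₀, map_ofNat, map_neg]
  have n3 : (cK (-210) : K (W8 k)) = -210 := by simp [map_div₀, map_ofNat, map_neg]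
  have n4 : (cK (14) : K (W8 k)) = 14 := by simp [map_div₀, map_ofNat, map_neg]
  have n5 : (cK (-6) : K (W8 k)) = -6 := by simp [map_div₀, map_ofNat, map_neg]
  have n6 : (cK (-30) : K (W8 k)) = -30 := by simp [map_div₀, map_ofNat, map_neg]
  have n7 : (cK (-14) : K (W8 k)) = -14 := by simp [map_div₀, map_ofNat, map_neg]
  have hr : ∀ j m, (cK (rr k j m) : K (W8 k)) = ((rrz j m : ℤ) : K (W8 k)) / 1 := by
    intro j m
    unfold rr
    first | rw [map_div₀, map_intCast, map_ofNat] | rw [map_div₀, map_intCast, map_one]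
  rw [n0, n1] at he h1 h2
  unfold ld
  rw [← mul_div_assoc, div_eq_iff hu, dv_uK, NV_eq]
  simp only [hr]
  unfold qK
  rw [n0, n1, n2, n3, n4]
  show xK * (xK - (210)) * (xK - (-42)) * (xK - (30)) * (xK - (-210)) * (xK - (14)) * dx =
      (((0 : ℤ) : K (W8 k)) / 1 + ((-11668860000 : ℤ) : K (W8 k)) / 1 * xK +
      ((0 : ℤ) : K (W8 k)) / 1 * yK + ((2500470000 : ℤ) : K (W8 k)) / 1 * xK ^ 2 +
      ((111132000 : ℤ) : K (W8 k)) / 1 * (xK * yK) + ((-13230000 : ℤ) : K (W8 k)) / 1 * xK ^ 3 +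
      ((-1058400 : ℤ) : K (W8 k)) / 1 * (xK ^ 2 * yK) + ((-1953000 : ℤ) : K (W8 k)) / 1 * xK ^ 4 +
      ((-90720 : ℤ) : K (W8 k)) / 1 * (xK ^ 3 * yK) + ((306 : ℤ) : K (W8 k)) / 1 * xK ^ 5 +
      ((24 : ℤ) : K (W8 k)) / 1 * (xK ^ 4 * yK) + ((43 : ℤ) : K (W8 k)) / 1 * xK ^ 6 +
      ((2 : ℤ) : K (W8 k)) / 1 * (xK ^ 5 * yK)) * (xK - cK (14))
  push_cast
  rw [h1, n4]
  ring


lemma ld_uK6 [CharZero k] : qK k * ld (uK k 6) = NV (rr k 6) := by
  have : CharZero (K (W8 k)) :=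
    charZero_of_injective_algebraMap (algebraMap k (K (W8 k))).injective
  have hu := uK_ne k 6
  have he := eqW8 k
  have h1 := hdx k
  have h2 := hdy k
  have n0 : (cK (210) : K (W8 k)) = 210 := by simp [map_div₀, map_ofNat, map_neg]
  have n1 : (cK (-42) : K (W8 k)) = -42 := by simp [map_div₀, map_ofNat, map_neg]
  have n2 : (cK (30) : K (W8 k)) = 30 := by simp [map_div₀, map_ofNat, map_neg]
  have n3 : (cK (-210) : K (W8 k)) = -210 := by simp [map_div₀, map_ofNat, map_neg]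
  have n4 : (cK (14) : K (W8 k)) = 14 := by simp [map_div₀, map_ofNat, map_neg]
  have n5 : (cK (-6) : K (W8 k)) = -6 := by simp [map_div₀, map_ofNat, map_neg]
  have n6 : (cK (-30) : K (W8 k)) = -30 := by simp [map_div₀, map_ofNat, map_neg]
  have n7 : (cK (-14) : K (W8 k)) = -14 := by simp [map_div₀, map_ofNat, map_neg]
  have hr : ∀ j m, (cK (rr k j m) : K (W8 k)) = ((rrz j m : ℤ) : K (W8 k)) / 1 := by
    intro j m
    unfold rr
    first | rw [map_div₀, map_intCast, map_ofNat] | rw [map_div₀, map_intCast, map_one]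
  rw [n0, n1] at he h1 h2
  unfold ld
  rw [← mul_div_assoc, div_eq_iff hu, dv_uK, NV_eq]
  simp only [hr]
  unfold qK
  rw [n0, n1, n2, n3, n4]
  show xK * (xK - (210)) * (xK - (-42)) * (xK - (30)) * (xK - (-210)) * (xK - (14)) * dy =
      (((326728080000 : ℤ) : K (W8 k)) / 1 + ((-60678072000 : ℤ) : K (W8 k)) / 1 * xK +
      ((-1555848000 : ℤ) : K (W8 k)) / 1 * yK + ((2882023200 : ℤ) : K (W8 k)) / 1 * xK ^ 2 +
      ((129654000 : ℤ) : K (W8 k)) / 1 * (xK * yK) + ((11924640 : ℤ) : K (W8 k)) / 1 * xK ^ 3 +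
      ((-70560 : ℤ) : K (W8 k)) / 1 * (xK ^ 2 * yK) + ((-2080008 : ℤ) : K (W8 k)) / 1 * xK ^ 4 +
      ((-92904 : ℤ) : K (W8 k)) / 1 * (xK ^ 3 * yK) + ((8228 : ℤ) : K (W8 k)) / 1 * xK ^ 5 +
      ((204 : ℤ) : K (W8 k)) / 1 * (xK ^ 4 * yK) + ((86 : ℤ) : K (W8 k)) / 1 * xK ^ 6 +
      ((3 : ℤ) : K (W8 k)) / 1 * (xK ^ 5 * yK)) * (yK)
  push_cast
  rw [h2]
  linear_combination ((1555848000) * xK ^ 0 + (-129654000) * xK ^ 1 + (70560) * xK ^ 2 + (92904) * xK ^ 3 + (-204) * xK ^ 4 + (-3) * xK ^ 5) * he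


lemma ld_uK7 [CharZero k] : qK k * ld (uK k 7) = NV (rr k 7) := by
  have : CharZero (K (W8 k)) :=
    charZero_of_injective_algebraMap (algebraMap k (K (W8 k))).injective
  have hu := uK_ne k 7
  have he := eqW8 k
  have h1 := hdx k
  have h2 := hdy k
  have n0 : (cK (210) : K (W8 k)) = 210 := by simp [map_div₀, map_ofNat, map_neg]
  have n1 : (cK (-42) : K (W8 k)) = -42 := by simp [map_div₀, map_ofNat, map_neg]
  have n2 : (cK (30) : K (W8 k)) = 30 := by simp [map_div₀, map_ofNat, map_neg]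
  have n3 : (cK (-210) : K (W8 k)) = -210 := by simp [map_div₀, map_ofNat, map_neg]
  have n4 : (cK (14) : K (W8 k)) = 14 := by simp [map_div₀, map_ofNat, map_neg]
  have n5 : (cK (-6) : K (W8 k)) = -6 := by simp [map_div₀, map_ofNat, map_neg]
  have n6 : (cK (-30) : K (W8 k)) = -30 := by simp [map_div₀, map_ofNat, map_neg]
  have n7 : (cK (-14) : K (W8 k)) = -14 := by simp [map_div₀, map_ofNat, map_neg]
  have hr : ∀ j m, (cK (rr k j m) : K (W8 k)) = ((rrz j m : ℤ) : K (W8 k)) / 1 := by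
    intro j m
    unfold rr
    first | rw [map_div₀, map_intCast, map_ofNat] | rw [map_div₀, map_intCast, map_one]
  rw [n0, n1] at he h1 h2
  unfold ld
  rw [← mul_div_assoc, div_eq_iff hu, dv_uK, NV_eq]
  simp only [hr]
  unfold qK
  rw [n0, n1, n2, n3, n4]
  show xK * (xK - (210)) * (xK - (-42)) * (xK - (30)) * (xK - (-210)) * (xK - (14)) * (dy - (-42) * dx) =
      (((163364040000 : ℤ) : K (W8 k)) / 1 + ((-42785820000 : ℤ) : K (W8 k)) / 1 * xK +
      ((-777924000 : ℤ) : K (W8 k)) / 1 * yK + ((2259684000 : ℤ) : K (W8 k)) / 1 * xK ^ 2 +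
      ((48157200 : ℤ) : K (W8 k)) / 1 * (xK * yK) + ((25225200 : ℤ) : K (W8 k)) / 1 * xK ^ 3 +
      ((1764000 : ℤ) : K (W8 k)) / 1 * (xK ^ 2 * yK) + ((-1991724 : ℤ) : K (W8 k)) / 1 * xK ^ 4 +
      ((-91056 : ℤ) : K (W8 k)) / 1 * (xK ^ 3 * yK) + ((-550 : ℤ) : K (W8 k)) / 1 * xK ^ 5 +
      ((162 : ℤ) : K (W8 k)) / 1 * (xK ^ 4 * yK) + ((44 : ℤ) : K (W8 k)) / 1 * xK ^ 6 +
      ((3 : ℤ) : K (W8 k)) / 1 * (xK ^ 5 * yK)) * (yK - cK (-42) * xK)
  push_cast
  rw [h1, h2, n1]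
  linear_combination ((777924000) * xK ^ 0 + (-48157200) * xK ^ 1 + (-1764000) * xK ^ 2 + (91056) * xK ^ 3 + (-162) * xK ^ 4 + (-3) * xK ^ 5) * he


lemma ld_uK8 [CharZero k] : qK k * ld (uK k 8) = NV (rr k 8) := by
  have : CharZero (K (W8 k)) :=
    charZero_of_injective_algebraMap (algebraMap k (K (W8 k))).injective
  have hu := uK_ne k 8
  have he := eqW8 k
  have h1 := hdx k
  have h2 := hdy k
  have n0 : (cK (210) : K (W8 k)) = 210 := by simp [map_div₀, map_ofNat, map_neg]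
  have n1 : (cK (-42) : K (W8 k)) = -42 := by simp [map_div₀, map_ofNat, map_neg]
  have n2 : (cK (30) : K (W8 k)) = 30 := by simp [map_div₀, map_ofNat, map_neg]
  have n3 : (cK (-210) : K (W8 k)) = -210 := by simp [map_div₀, map_ofNat, map_neg]
  have n4 : (cK (14) : K (W8 k)) = 14 := by simp [map_div₀, map_ofNat, map_neg]
  have n5 : (cK (-6) : K (W8 k)) = -6 := by simp [map_div₀, map_ofNat, map_neg]
  have n6 : (cK (-30) : K (W8 k)) = -30 := by simp [map_div₀, map_ofNat, map_neg]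
  have n7 : (cK (-14) : K (W8 k)) = -14 := by simp [map_div₀, map_ofNat, map_neg]
  have hr : ∀ j m, (cK (rr k j m) : K (W8 k)) = ((rrz j m : ℤ) : K (W8 k)) / 1 := by
    intro j m
    unfold rr
    first | rw [map_div₀, map_intCast, map_ofNat] | rw [map_div₀, map_intCast, map_one]
  rw [n0, n1] at he h1 h2
  unfold ld
  rw [← mul_div_assoc, div_eq_iff hu, dv_uK, NV_eq]
  simp only [hr]
  unfold qK
  rw [n0, n1, n2, n3, n4]
  show xK * (xK - (210)) * (xK - (-42)) * (xK - (30)) * (xK - (-210)) * (xK - (14)) * (dy - cK (-6) * dx) =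
      (((163364040000 : ℤ) : K (W8 k)) / 1 + ((-19448100000 : ℤ) : K (W8 k)) / 1 * xK +
      ((-777924000 : ℤ) : K (W8 k)) / 1 * yK + ((481572000 : ℤ) : K (W8 k)) / 1 * xK ^ 2 +
      ((70383600 : ℤ) : K (W8 k)) / 1 * (xK * yK) + ((54860400 : ℤ) : K (W8 k)) / 1 * xK ^ 3 +
      ((811440 : ℤ) : K (W8 k)) / 1 * (xK ^ 2 * yK) + ((-3539004 : ℤ) : K (W8 k)) / 1 * xK ^ 4 +
      ((-133896 : ℤ) : K (W8 k)) / 1 * (xK ^ 3 * yK) + ((-1234 : ℤ) : K (W8 k)) / 1 * xK ^ 5 +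
      ((-18 : ℤ) : K (W8 k)) / 1 * (xK ^ 4 * yK) + ((80 : ℤ) : K (W8 k)) / 1 * xK ^ 6 +
      ((3 : ℤ) : K (W8 k)) / 1 * (xK ^ 5 * yK)) * (yK - cK (-6) * xK)
  push_cast
  rw [h1, h2, n5]
  linear_combination ((777924000) * xK ^ 0 + (-70383600) * xK ^ 1 + (-811440) * xK ^ 2 + (133896) * xK ^ 3 + (18) * xK ^ 4 + (-3) * xK ^ 5) * he


lemma ld_uK9 [CharZero k] : qK k * ld (uK k 9) = NV (rr k 9) := by
  have : CharZero (K (W8 k)) :=
    charZero_of_injective_algebraMap (algebraMap k (K (W8 k))).injective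
  have hu := uK_ne k 9
  have he := eqW8 k
  have h1 := hdx k
  have h2 := hdy k
  have n0 : (cK (210) : K (W8 k)) = 210 := by simp [map_div₀, map_ofNat, map_neg]
  have n1 : (cK (-42) : K (W8 k)) = -42 := by simp [map_div₀, map_ofNat, map_neg]
  have n2 : (cK (30) : K (W8 k)) = 30 := by simp [map_div₀, map_ofNat, map_neg]
  have n3 : (cK (-210) : K (W8 k)) = -210 := by simp [map_div₀, map_ofNat, map_neg]
  have n4 : (cK (14) : K (W8 k)) = 14 := by simp [map_div₀, map_ofNat, map_neg]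
  have n5 : (cK (-6) : K (W8 k)) = -6 := by simp [map_div₀, map_ofNat, map_neg]
  have n6 : (cK (-30) : K (W8 k)) = -30 := by simp [map_div₀, map_ofNat, map_neg]
  have n7 : (cK (-14) : K (W8 k)) = -14 := by simp [map_div₀, map_ofNat, map_neg]
  have hr : ∀ j m, (cK (rr k j m) : K (W8 k)) = ((rrz j m : ℤ) : K (W8 k)) / 1 := by
    intro j m
    unfold rr
    first | rw [map_div₀, map_intCast, map_ofNat] | rw [map_div₀, map_intCast, map_one]
  rw [n0, n1] at he h1 h2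
  unfold ld
  rw [← mul_div_assoc, div_eq_iff hu, dv_uK, NV_eq]
  simp only [hr]
  unfold qK
  rw [n0, n1, n2, n3, n4]
  show xK * (xK - (210)) * (xK - (-42)) * (xK - (30)) * (xK - (-210)) * (xK - (14)) * (dy - cK (-30) * dx) =
      (((163364040000 : ℤ) : K (W8 k)) / 1 + ((-41229972000 : ℤ) : K (W8 k)) / 1 * xK +
      ((-777924000 : ℤ) : K (W8 k)) / 1 * yK + ((2348589600 : ℤ) : K (W8 k)) / 1 * xK ^ 2 +
      ((85201200 : ℤ) : K (W8 k)) / 1 * (xK * yK) + ((10407600 : ℤ) : K (W8 k)) / 1 * xK ^ 3 +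
      ((-811440 : ℤ) : K (W8 k)) / 1 * (xK ^ 2 * yK) + ((-1920828 : ℤ) : K (W8 k)) / 1 * xK ^ 4 +
      ((-91224 : ℤ) : K (W8 k)) / 1 * (xK ^ 3 * yK) + ((-3082 : ℤ) : K (W8 k)) / 1 * xK ^ 5 +
      ((-186 : ℤ) : K (W8 k)) / 1 * (xK ^ 4 * yK) + ((56 : ℤ) : K (W8 k)) / 1 * xK ^ 6 +
      ((3 : ℤ) : K (W8 k)) / 1 * (xK ^ 5 * yK)) * (yK - cK (-30) * xK)
  push_cast
  rw [h1, h2, n6]
  linear_combination ((777924000) * xK ^ 0 + (-85201200) * xK ^ 1 + (811440) * xK ^ 2 + (91224) * xK ^ 3 + (186) * xK ^ 4 + (-3) * xK ^ 5) * he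


lemma ld_uK10 [CharZero k] : qK k * ld (uK k 10) = NV (rr k 10) := by
  have : CharZero (K (W8 k)) :=
    charZero_of_injective_algebraMap (algebraMap k (K (W8 k))).injective
  have hu := uK_ne k 10
  have he := eqW8 k
  have h1 := hdx k
  have h2 := hdy k
  have n0 : (cK (210) : K (W8 k)) = 210 := by simp [map_div₀, map_ofNat, map_neg]
  have n1 : (cK (-42) : K (W8 k)) = -42 := by simp [map_div₀, map_ofNat, map_neg]
  have n2 : (cK (30) : K (W8 k)) = 30 := by simp [map_div₀, map_ofNat, map_neg]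
  have n3 : (cK (-210) : K (W8 k)) = -210 := by simp [map_div₀, map_ofNat, map_neg]
  have n4 : (cK (14) : K (W8 k)) = 14 := by simp [map_div₀, map_ofNat, map_neg]
  have n5 : (cK (-6) : K (W8 k)) = -6 := by simp [map_div₀, map_ofNat, map_neg]
  have n6 : (cK (-30) : K (W8 k)) = -30 := by simp [map_div₀, map_ofNat, map_neg]
  have n7 : (cK (-14) : K (W8 k)) = -14 := by simp [map_div₀, map_ofNat, map_neg]
  have hr : ∀ j m, (cK (rr k j m) : K (W8 k)) = ((rrz j m : ℤ) : K (W8 k)) / 1 := by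
    intro j m
    unfold rr
    first | rw [map_div₀, map_intCast, map_ofNat] | rw [map_div₀, map_intCast, map_one]
  rw [n0, n1] at he h1 h2
  unfold ld
  rw [← mul_div_assoc, div_eq_iff hu, dv_uK, NV_eq]
  simp only [hr]
  unfold qK
  rw [n0, n1, n2, n3, n4]
  show xK * (xK - (210)) * (xK - (-42)) * (xK - (30)) * (xK - (-210)) * (xK - (14)) * (dy - cK (-14) * dx) =
      (((163364040000 : ℤ) : K (W8 k)) / 1 + ((-35006580000 : ℤ) : K (W8 k)) / 1 * xK +
      ((-777924000 : ℤ) : K (W8 k)) / 1 * yK + ((2407860000 : ℤ) : K (W8 k)) / 1 * xK ^ 2 +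
      ((114836400 : ℤ) : K (W8 k)) / 1 * (xK * yK) + ((14641200 : ℤ) : K (W8 k)) / 1 * xK ^ 3 +
      ((-105840 : ℤ) : K (W8 k)) / 1 * (xK ^ 2 * yK) + ((-1939644 : ℤ) : K (W8 k)) / 1 * xK ^ 4 +
      ((-91896 : ℤ) : K (W8 k)) / 1 * (xK ^ 3 * yK) + ((-6458 : ℤ) : K (W8 k)) / 1 * xK ^ 5 +
      ((-202 : ℤ) : K (W8 k)) / 1 * (xK ^ 4 * yK) + ((72 : ℤ) : K (W8 k)) / 1 * xK ^ 6 +
      ((3 : ℤ) : K (W8 k)) / 1 * (xK ^ 5 * yK)) * (yK - cK (-14) * xK)
  push_cast
  rw [h1, h2, n7]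
  linear_combination ((777924000) * xK ^ 0 + (-114836400) * xK ^ 1 + (105840) * xK ^ 2 + (91896) * xK ^ 3 + (202) * xK ^ 4 + (-3) * xK ^ 5) * he


lemma ld_uK [CharZero k] (j : Fin 11) : qK k * ld (uK k j) = NV (rr k j) := by
  fin_cases j
  · exact ld_uK0 k
  · exact ld_uK1 k
  · exact ld_uK2 k
  · exact ld_uK3 k
  · exact ld_uK4 k
  · exact ld_uK5 k
  · exact ld_uK6 k
  · exact ld_uK7 k
  · exact ld_uK8 k
  · exact ld_uK9 k
  · exact ld_uK10 k


/-! ### monomials -/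

/-- a monomial -/
noncomputable def mo (n : Fin 11 → ℤ) : K (W8 k) := ∏ j, uK k j ^ n j

/-- the coefficients of `q f'/f` for a monomial `f` -/
noncomputable def RR (n : Fin 11 → ℤ) : Fin 13 → k := ∑ j, ((n j : ℤ) : k) • rr k j

lemma LC_mo (n : Fin 11 → ℤ) : LC (mo k n) (- Dn n 0) 1 := by
  have h := LC_prod Finset.univ (z := fun j => uK k j ^ n j) (n := fun j => n j * (- oU j 0))
    (a := fun j => (1 : k) ^ n j) (fun j _ => (LC_uK k j).zpow (n j))
  simp only [one_zpow, Finset.prod_const_one] at h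
  have e : - Dn n 0 = ∑ j, n j * (- oU j 0) := by
    unfold Dn; rw [← Finset.sum_neg_distrib]; exact Finset.sum_congr rfl fun j _ => by ring
  rw [e]; exact h

lemma mo_ne (n : Fin 11 → ℤ) : mo k n ≠ 0 := (LC_mo k n).ne

lemma ld_prod {ι : Type*} (s : Finset ι) (z : ι → K (W8 k)) (hz : ∀ i ∈ s, z i ≠ 0) :
    ld (∏ i ∈ s, z i) = ∑ i ∈ s, ld (z i) := by
  classical
  induction s using Finset.induction_on with
  | empty => simpa using ld_one
  | insert i s hi ih =>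
    have h1 := hz i (Finset.mem_insert_self _ _)
    have h2 : ∀ j ∈ s, z j ≠ 0 := fun j hj => hz j (Finset.mem_insert_of_mem hj)
    rw [Finset.prod_insert hi, Finset.sum_insert hi, ld_mul h1 (Finset.prod_ne_zero_iff.mpr h2),
      ih h2]

variable [CharZero k]

lemma ld_mo (n : Fin 11 → ℤ) : qK k * ld (mo k n) = NV (RR k n) := by
  unfold mo RR
  rw [ld_prod k _ _ (fun j _ => zpow_ne_zero _ (uK_ne k j)), NV_sum, Finset.mul_sum]
  refine Finset.sum_congr rfl fun j _ => ?_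
  rw [ld_zpow (uK_ne k j), ← ld_uK]
  have : (cK ((n j : ℤ) : k) : K (W8 k)) = ((n j : ℤ) : K (W8 k)) := map_intCast _ _
  rw [this]; ring

lemma RR_top (n : Fin 11 → ℤ) : RR k n 12 = ((- Dn n 0 : ℤ) : k) := by
  unfold RR Dn
  rw [Finset.sum_apply, ← Finset.sum_neg_distrib]
  push_cast
  refine Finset.sum_congr rfl fun j _ => ?_
  rw [Pi.smul_apply, smul_eq_mul, rr_top]; push_cast; ring

variable {k}

/-- **the orders and values at the origin** -/
theorem bound_K {c₀ c₁ : k} (h0 : c₀ ≠ 0) (h1 : c₁ ≠ 0) {n n' : Fin 11 → ℤ}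
    (h : cK c₀ * mo k n + cK c₁ * mo k n' = 1) :
    (Dn n 0 = 0 ∧ Dn n' 0 = 0) ∨
    (1 ≤ Dn n 0 ∧ Dn n' 0 = 0 ∧ c₁ = 1 ∧
      ∃ M : Fin 13, ordm M = 13 - Dn n 0 ∧ ∀ m, M < m → RR k n' m = 0) ∨
    (Dn n 0 = 0 ∧ 1 ≤ Dn n' 0 ∧ c₀ = 1) ∨
    (Dn n 0 = Dn n' 0 ∧ Dn n 0 ≤ -1 ∧ c₀ = - c₁) := by
  have hc0 : (cK c₀ : K (W8 k)) ≠ 0 := ne_of_v (v_c h0)
  have hc1 : (cK c₁ : K (W8 k)) ≠ 0 := ne_of_v (v_c h1)
  have Lf : LC (cK c₀ * mo k n) (- Dn n 0) c₀ := by
    have := (LC_c (W := W8 k) h0).mul (LC_mo k n); rwa [zero_add, mul_one] at this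
  have Lg : LC (cK c₁ * mo k n') (- Dn n' 0) c₁ := by
    have := (LC_c (W := W8 k) h1).mul (LC_mo k n'); rwa [zero_add, mul_one] at this
  have lf : NV (RR k n) = qK k * ld (cK c₀ * mo k n) := by
    rw [ld_mul hc0 (mo_ne _ _), ld_c, zero_add, ld_mo]
  have lg : NV (RR k n') = qK k * ld (cK c₁ * mo k n') := by
    rw [ld_mul hc1 (mo_ne _ _), ld_c, zero_add, ld_mo]
  have top : ∀ {m : Fin 11 → ℤ}, RR k m 12 ≠ 0 ↔ Dn m 0 ≠ 0 := by
    intro m; rw [RR_top]
    constructor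
    · intro h h'; apply h; rw [h']; simp
    · intro h h'; apply h; have := Int.cast_eq_zero.mp h'; omega
  rcases wr2 h lf lg Lf.v_eq Lg.v_eq (NV_key _) (NV_key _) (by rw [← NV_sub]; exact NV_key _) with
    ⟨h2, h3⟩ | ⟨i, j, l, hi, hj, hl, e1, e2, h2⟩
  · left
    constructor
    · by_contra hne
      exact top.mpr hne (by rw [NV_eq_zero h2]; rfl)
    · by_contra hne
      exact top.mpr hne (by rw [NV_eq_zero h3]; rfl)
  · have val1 : Dn n 0 = 0 → Dn n' 0 ≥ 1 → c₀ = 1 := by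
      intro a1 a2
      rw [a1, neg_zero] at Lf
      refine Lf.unique LC_one ?_
      have : cK c₀ * mo k n - 1 = - (cK c₁ * mo k n') := by rw [← h]; ring
      rw [this, Valuation.map_neg, Lg.v_eq, ← exp_zero, exp_lt_exp]; omega
    have val2 : Dn n' 0 = 0 → Dn n 0 ≥ 1 → c₁ = 1 := by
      intro a1 a2
      rw [a1, neg_zero] at Lg
      refine Lg.unique LC_one ?_
      have : cK c₁ * mo k n' - 1 = - (cK c₀ * mo k n) := by rw [← h]; ring
      rw [this, Valuation.map_neg, Lf.v_eq, ← exp_zero, exp_lt_exp]; omega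
    have val3 : Dn n 0 = Dn n' 0 → Dn n 0 ≤ -1 → c₀ = - c₁ := by
      intro a1 a2
      have L1 := Lf.div Lg
      rw [a1, sub_self] at L1
      have L2 : LC (-1 : K (W8 k)) 0 (-1) := by
        have := LC_c (W := W8 k) (a := -1) (neg_ne_zero.mpr one_ne_zero)
        rwa [map_neg, map_one] at this
      have h3 : c₀ / c₁ = -1 := by
        refine L1.unique L2 ?_
        have hg := Lg.ne
        have : cK c₀ * mo k n / (cK c₁ * mo k n') - (-1) = 1 / (cK c₁ * mo k n') := by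
          rw [sub_neg_eq_add, div_add_one hg, h]
        rw [this, map_div₀, map_one, Lg.v_eq, one_div, ← exp_neg, ← exp_zero, exp_lt_exp]; omega
      rw [div_eq_iff h1] at h3; rw [h3]; ring
    rcases h2 with h2 | h2 | h2 | h2
    · right; right; right
      exact ⟨by omega, by omega, val3 (by omega) (by omega)⟩
    · left; omega
    · right; left
      refine ⟨by omega, by omega, val2 (by omega) (by omega), ?_⟩
      have t0 : RR k n' 12 = 0 := by rw [RR_top, show Dn n' 0 = 0 by omega]; simp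
      have t1 : RR k n 12 ≠ 0 := top.mpr (by omega)
      have l9 : l = 13 := by
        rw [← NV_sub] at hl
        rcases v_NV' (W := W8 k) (RR k n - RR k n') with h3 | ⟨M, hM, hM', hv⟩
        · rw [h3, NV_zero, map_zero] at hl; exact absurd hl.symm exp_ne_zero
        · rw [hl, exp_inj] at hv
          have : M = 12 := by
            by_contra hne
            have h4 := hM' 12 (lt_of_le_of_ne (Fin.le_last M) hne)
            rw [Pi.sub_apply, t0, sub_zero] at h4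
            exact t1 h4
          rw [hv, this]; rfl
      rcases v_NV' (W := W8 k) (RR k n') with h3 | ⟨M, hM, hM', hv⟩
      · rw [h3, NV_zero, map_zero] at hj; exact absurd hj.symm exp_ne_zero
      · rw [hj, exp_inj] at hv
        exact ⟨M, by omega, hM'⟩
    · right; right; left
      exact ⟨by omega, by omega, val1 (by omega) (by omega)⟩

end K

end Pool.Agent.KYa
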