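import Pool.Agent.Lib_helper72.KYa.C

/-!
# The curve with `b = 210`, `c = -42`: identities
-/

set_option autoImplicit false
set_option linter.unusedSectionVars false
set_option linter.unusedSimpArgs false
set_option linter.unusedVariables false

namespace Pool.Agent.KYa

open Polynomial WeierstrassCurve.Affine WithZero TN KY KC72

section

variable {k : Type*} [Field k] [CharZero k] {F : Type*} [Field F] [Algebra k F] {x y : F}


lemma bp36 (h : Gen (210 : k) (-42) x y) :
    KC72.ev (List.ofFn (G8 x y)) (false, [0, 2, 0, 0, 0, 1, 0, 0, 0, 0, 0, 0, 0, 0, 0]) + KC72.ev (List.ofFn (G8 x y)) (false, [0, 0, 0, 2, 0, 0, 0, 0, 0, 0, 0, 1, 0, 0, 3]) =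
      KC72.ev (List.ofFn (G8 x y)) (false, [1, 0, 1, 0, 1, 0, 0, 0, 0, 0, 0, 0, 0, 0, 0]) := by
  have := cz (k := k) (F := F)
  have he := Gen.eq' h
  have v1 : KC72.ev (List.ofFn (G8 x y)) (false, [0, 2, 0, 0, 0, 1, 0, 0, 0, 0, 0, 0, 0, 0, 0]) = (1) * (x - 210) ^ 2 * (x - 14) ^ 1 := by
    rw [ev_G8 (k := k)]
    simp [M8, Fin.prod_univ_succ, uF, zpow_ofNat, map_ofNat]
    all_goals first
      | done
      | ring1
      | (left; norm_num; done)
      | (norm_num; done)
      | (norm_num; ring1)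
  have v2 : KC72.ev (List.ofFn (G8 x y)) (false, [0, 0, 0, 2, 0, 0, 0, 0, 0, 0, 0, 1, 0, 0, 3]) = (686) * (x - 30) ^ 2 := by
    rw [ev_G8 (k := k)]
    simp [M8, Fin.prod_univ_succ, uF, zpow_ofNat, map_ofNat]
    all_goals first
      | done
      | ring1
      | (left; norm_num; done)
      | (norm_num; done)
      | (norm_num; ring1)
  have v3 : KC72.ev (List.ofFn (G8 x y)) (false, [1, 0, 1, 0, 1, 0, 0, 0, 0, 0, 0, 0, 0, 0, 0]) = (1) * (x) ^ 1 * (x + 42) ^ 1 * (x + 210) ^ 1 := by
    rw [ev_G8 (k := k)]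
    simp [M8, Fin.prod_univ_succ, uF, zpow_ofNat, map_ofNat]
    all_goals first
      | done
      | ring1
      | (left; norm_num; done)
      | (norm_num; done)
      | (norm_num; ring1)
  rw [v1, v2, v3]
  linear_combination (0) * he


end

end Pool.Agent.KYa
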