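import Pool.Agent.Lib_helper72.KYa.ClD
import Pool.Agent.Lib_helper72.KYa.C

/-!
# The curve with `b = 210`, `c = -42`: the coefficients
-/

set_option autoImplicit false

namespace Pool.Agent.KYa

open KY KC72

lemma kap_key : ∀ m i, 12 * ∑ j, ex i j * rrz j m = kap m (i - 1) + kap m (i + 1) - 2 * kap m i := by
  decide +kernel

lemma nu0_key : ∀ i, nu0 (i - 1) + nu0 (i + 1) - 2 * nu0 i = 24 * al i - 2 * (11) := by
  decide +kernel

lemma nu1_key : ∀ i, nu1 (i - 1) + nu1 (i + 1) - 2 * nu1 i = 24 * be i - 2 * (10) := by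
  decide +kernel

lemma nu2_key : ∀ i, nu2 (i - 1) + nu2 (i + 1) - 2 * nu2 i = 24 * ga i - 2 * (8) := by
  decide +kernel

lemma nu3_key : ∀ i, nu3 (i - 1) + nu3 (i + 1) - 2 * nu3 i = 24 * de i - 2 * (9) := by
  decide +kernel

end Pool.Agent.KYa
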