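import Pool.Agent.Lib_helper72.KYa.Cp

/-!
# The curve with `b = 210`, `c = -42`: checks of the cubic step
-/

set_option autoImplicit false
set_option linter.unusedSectionVars false
set_option linter.unusedSimpArgs false
set_option linter.unusedVariables false

namespace Pool.Agent.KYa

open Polynomial WeierstrassCurve.Affine WithZero TN KY KC72 MK4
open Pool.Agent.K7 (orb6_orb)

lemma clsA_len : clsA.length = 393 := by decide +kernel

lemma chk1 : (List.range 2).all (fun i =>
    eqM (shM T8 (cubT.getD i default).2.1 (R0.getD (cubT.getD i default).1 default))
    (oo cls (393 + i, (cubT.getD i default).2.2)) && (Nat.blt (cubT.getD i default).2.1 2 &&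
    Nat.blt (cubT.getD i default).1 1)) = true := by
  decide +kernel

lemma chk2 : (List.range 2).all (fun j => (List.range 9).all (fun q =>
    Nat.blt ((qT.getD j []).getD q default).1 393 &&
    eqM (shM T8 j (pq.getD q default)) (oo cls ((qT.getD j []).getD q default)))) = true := by
  decide +kernel

end Pool.Agent.KYa
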