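import Pool.Agent.Lib_helper72.KYa.C
import Pool.Agent.Lib_helper72.KYa.ClD
import Pool.Agent.Lib_helper72.KY.Nx
import Pool.Agent.Lib_helper72.KC.P2

/-!
# The curve with `b = 210`, `c = -42`: data of the cubic step
-/

set_option autoImplicit false
set_option linter.unusedSectionVars false
set_option linter.unusedSimpArgs false
set_option linter.unusedVariables false

namespace Pool.Agent.KYa

open Polynomial WeierstrassCurve.Affine WithZero TN KY KC72 MK4
open Pool.Agent.K7 (orb6_orb)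

/-- the Moebius functions -/
noncomputable def pq : List Mo := [
  (false, [.ofNat 0, .ofNat 1, .ofNat 0, .negSucc 0, .ofNat 0, .ofNat 0, .ofNat 0, .ofNat 0, .ofNat 0, .ofNat 0, .ofNat 0, .ofNat 0, .ofNat 0, .ofNat 0, .negSucc 0]),
  (true, [.ofNat 0, .ofNat 0, .ofNat 0, .ofNat 0, .ofNat 0, .ofNat 1, .ofNat 0, .ofNat 0, .ofNat 0, .ofNat 0, .ofNat 0, .negSucc 0, .ofNat 0, .ofNat 0, .negSucc 0]),
  (true, [.ofNat 0, .ofNat 1, .negSucc 0, .ofNat 0, .ofNat 0, .ofNat 0, .ofNat 0, .ofNat 0, .ofNat 0, .ofNat 0, .ofNat 0, .ofNat 1, .ofNat 0, .negSucc 0, .ofNat 0]),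
  (false, [.ofNat 0, .ofNat 0, .ofNat 0, .ofNat 0, .negSucc 0, .ofNat 1, .ofNat 0, .ofNat 0, .ofNat 0, .ofNat 0, .ofNat 0, .ofNat 0, .ofNat 1, .ofNat 1, .ofNat 0]),
  (true, [.ofNat 0, .ofNat 1, .ofNat 0, .ofNat 0, .ofNat 0, .ofNat 0, .ofNat 0, .ofNat 0, .ofNat 0, .ofNat 0, .ofNat 0, .negSucc 1, .negSucc 0, .negSucc 0, .negSucc 0]),
  (false, [.ofNat 0, .ofNat 0, .ofNat 0, .negSucc 0, .ofNat 0, .ofNat 1, .ofNat 0, .ofNat 0, .ofNat 0, .ofNat 0, .ofNat 0, .negSucc 0, .ofNat 1, .ofNat 1, .negSucc 0]),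
  (false, [.ofNat 0, .ofNat 0, .ofNat 0, .ofNat 0, .negSucc 0, .ofNat 1, .ofNat 0, .ofNat 0, .ofNat 0, .ofNat 0, .ofNat 0, .ofNat 0, .ofNat 1, .ofNat 1, .negSucc 0]),
  (false, [.ofNat 0, .negSucc 0, .ofNat 0, .ofNat 0, .ofNat 0, .ofNat 1, .ofNat 0, .ofNat 0, .ofNat 0, .ofNat 0, .ofNat 0, .ofNat 0, .ofNat 0, .ofNat 0, .ofNat 0]),
  (true, [.ofNat 0, .ofNat 0, .ofNat 0, .ofNat 0, .ofNat 0, .ofNat 1, .ofNat 0, .ofNat 0, .ofNat 0, .ofNat 0, .ofNat 0, .negSucc 2, .ofNat 0, .ofNat 0, .negSucc 0])]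

/-- the functions of degree three of the coordinate -/
noncomputable def R0 : List Mo := [
  (true, [.ofNat 0, .ofNat 2, .ofNat 0, .negSucc 1, .ofNat 0, .ofNat 1, .ofNat 0, .ofNat 0, .ofNat 0, .ofNat 0, .ofNat 0, .negSucc 0, .ofNat 0, .ofNat 0, .negSucc 2])]

/-- positions of the translates of `pq` -/
noncomputable def qT : List (List (ℕ × ℕ)) := [
  [(103, 4), (69, 4), (163, 5), (239, 1), (147, 5), (239, 3), (144, 1), (140, 2), (204, 4)],
  [(134, 4), (329, 1), (227, 1), (253, 0), (0, 2), (253, 5), (266, 2), (9, 4), (8, 2)]]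

/-- positions of the classes of degree six -/
noncomputable def cubT : List (ℕ × ℕ × ℕ) := [(0, 1, 3), (0, 0, 4)]

/-- the classes of degree at most five -/
noncomputable def clsA : List (Mo × Mo) := cls.take 393

section

variable {k : Type*} [Field k] [CharZero k] {F : Type*} [Field F] [Algebra k F] {x y : F}

lemma mk0 : algebraMap k F (210) = 210 := by simp [map_div₀, map_ofNat, map_neg]

lemma mk1 : algebraMap k F (14) = 14 := by simp [map_div₀, map_ofNat, map_neg]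

lemma mk2 : algebraMap k F (0) = 0 := by simp [map_div₀, map_ofNat, map_neg]

lemma mk3 : algebraMap k F (-42) = -42 := by simp [map_div₀, map_ofNat, map_neg]

lemma mk4 : algebraMap k F (-210) = -210 := by simp [map_div₀, map_ofNat, map_neg]

lemma mk5 : algebraMap k F (30) = 30 := by simp [map_div₀, map_ofNat, map_neg]

lemma mk6 : algebraMap k F (-1/686) = -1/686 := by simp [map_div₀, map_ofNat, map_neg]

end

end Pool.Agent.KYa
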