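import Pool.Agent.Lib_helper72.KY.Nf
import Pool.Agent.Lib_helper72.KYa.ClD
import Pool.Agent.Lib_helper72.KYa.C

/-!
# The curve with `b = 210`, `c = -42`: the classes under translation
-/

set_option autoImplicit false

namespace Pool.Agent.KYa

open KY KC72

/-- the packed generators at the next point -/
noncomputable def ptd : PT := ⟨512, 43556142965880123323311949751266331066368, 3, 15, [
  1,
  512,
  262144,
  134217728,
  68719476736,
  35184372088832,
  18014398509481984,
  9223372036854775808,
  4722366482869645213696,
  2417851639229258349412352,
  1237940039285380274899124224,
  633825300114114700748351602688,
  324518553658426726783156020576256,
  166153499473114484112975882535043072,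
  85070591730234615865843651857942052864], [
  85237070382086688890816126043358756862,
  85237070382086688900039498080213532158,
  85070916882613579138274990668813959166,
  166478651854495598960171914767630334,
  85237070383327046781722721109378334718,
  85070592366535796058529077971719815166,
  170474140764173377790837609725062807037,
  170307987264700268029091116712172715517,
  85237395534468070014868679713936375805,
  85403549035179124529043663765796552701,
  170307662748624902800966418806199025661,
  633825300114114700748351602688,
  324518553658426726783156020576256,
  166153499473114484112975882535043072,
  85070591730234615865843651857942052864],
  [false, true, false, true, false, true, false, false, false, false, false, false, false, false, false]⟩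

lemma ptO : ptd.Ok T8 where
  PB := by decide +kernel
  R := by decide +kernel
  S := by decide +kernel
  bT := by decide +kernel
  lT := by decide +kernel
  bN := by decide +kernel
  b0 := by decide +kernel

lemma nx_ok : ∀ c < cls.length, nxC T8 cls nxt c = true := nx_of ptO (by decide +kernel)

lemma rk_ok : ∀ c < cls.length, rkC bp cls nxt rk c = true := rk_of cls_len (by decide +kernel)

end Pool.Agent.KYa
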